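import Pool.Agent.H669Z.Upho.Main

open Pool.Agent.H669Z.Upho

/-- There is a finitary, finite-type graded upho lattice that is not multiplicable. -/
theorem Pool.Agent.Results.MP_8cec24_co.ANotMultiplicable.result :
    ∃ (P : Type) (_ : Lattice P),
      IsUpho P ∧ IsFinitary P ∧ IsFiniteTypeGraded P ∧ ¬ IsMultiplicable P :=
  main
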